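import Mathlib
import Pool.Agent.R274.SchurD

namespace Pool.Agent.Results.MP_86e52e_an.SchurTrivialDual

open Pool.Agent.R274.Schur

universe u

/-- For `0 < p < 1` there is a nonzero quasi-Banach space with the Schur `p`-property and with
trivial dual, over the real and over the complex numbers. -/
theorem result (𝕜 : Type u) [RCLike 𝕜] (p : ℝ) (hp0 : 0 < p) (hp1 : p < 1) :
    ∃ (X : Type u) (_ : AddCommGroup X) (_ : Module 𝕜 X) (q : X → ℝ),
      Nontrivial X ∧ IsQuasiBanach 𝕜 q ∧ SchurProperty 𝕜 q p ∧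
      ∀ f : X →ₗ[𝕜] 𝕜, (∃ C : ℝ, ∀ x, ‖f x‖ ≤ C * q x) → f = 0 :=
  Pool.Agent.R274.Schur.main 𝕜 p hp0 hp1

end Pool.Agent.Results.MP_86e52e_an.SchurTrivialDual
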